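import Pool.Agent.H500.ME.Stm
import Pool.Agent.H500.HC.Stm2
import Pool.Agent.H115.HC.Nrm
import Pool.Agent.H71.HC.Crt
import Pool.Agent.H955.HC.Dir
import Pool.Agent.H738.HC.Int

set_option autoImplicit false
set_option linter.unusedSectionVars false

/-!
PART B3 of project ME (helper500): types are unique (helper719; adapted from `Pool/Agent/H34/TH/TInt.lean`).
-/

namespace Pool.Agent.H719.ME.TYU

open NumberField IsDedekindDomain Filter Topology WithZero
open Pool.Agent.H500.HC Pool.Agent.H500.ME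
open Pool.Agent.H738.HC.Int (val_exp val_one val_uni)
open Pool.Agent.Q92.AR (Dv prin Cong Pos)

/-- the normal closure of `L` in `QBar` -/
theorem exE (L : Type) [Field L] [NumberField L] : ∃ (E : Type) (_ : Field E) (_ : NumberField E)
    (j : E →+* QBar), Function.Bijective (fun τ : L →+* E => j.comp τ) := by
  classical
  let E := IntermediateField.normalClosure ℚ L QBar
  have : NumberField E := { to_charZero := inferInstance, to_finiteDimensional := inferInstance }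
  refine ⟨E, inferInstance, this, algebraMap E QBar, ?_, ?_⟩
  · intro τ τ' h
    ext x
    have h1 := RingHom.congr_fun h x
    exact h1
  · intro σ
    let s : L →ₐ[ℚ] QBar := RingHom.toRatAlgHom σ
    have hs : ∀ x, s x ∈ E := fun x =>
      (AlgHom.fieldRange_le_normalClosure s) ⟨x, rfl⟩
    let τ : L →ₐ[ℚ] E := s.codRestrict E.toSubalgebra hs
    exact ⟨τ.toRingHom, by ext x; rfl⟩

variable {L : Type} [Field L] [NumberField L]

theorem ray_ne {N : ℕ} {x : 𝓞 L} (hx : InRay N x) : (x : L) ≠ 0 :=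
  RingOfIntegers.coe_ne_zero_iff.2 hx.1

theorem ray_mem {N : ℕ} {x : 𝓞 L} (hx : InRay N x) :
    Units.mk0 (x : L) (ray_ne hx) ∈ Pool.Agent.Q92.AR.Ray L N := by
  refine ⟨?_, fun φ => hx.2.2 φ⟩
  intro v _
  obtain ⟨z, hz⟩ := hx.2.1
  have h1 : ((Units.mk0 (x : L) (ray_ne hx) : Lˣ) : L) - 1 = (N : L) * (z : L) := by
    have h2 : algebraMap (𝓞 L) L (x - 1) = algebraMap (𝓞 L) L (N * z) := by rw [hz]
    rw [map_sub, map_one, map_mul, map_natCast] at h2
    exact h2
  rw [h1, map_mul]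
  exact mul_le_of_le_one_right' (v.valuation_le_one z)

theorem prin_single {v : HeightOneSpectrum (𝓞 L)} {x : 𝓞 L} (hx : (x : L) ≠ 0)
    (hv : v.asIdeal = Ideal.span {x}) : prin (Units.mk0 (x : L) hx) = Finsupp.single v 1 := by
  classical
  ext u
  rw [Pool.Agent.Q92.AR.prin_apply, Units.val_mk0, ← FractionalIdeal.coeIdeal_span_singleton, ← hv]
  by_cases h : u = v
  · subst h
    rw [Finsupp.single_eq_same, FractionalIdeal.count_self]
  · rw [Finsupp.single_eq_of_ne h, FractionalIdeal.count_maximal_coprime L u (Ne.symm h)]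

theorem norm_sq {x : 𝓞 L} : (((Ideal.absNorm (Ideal.span {x}) : ℕ) : QBar)) ^ 2 =
    (∏ τ : L →+* QBar, τ (x : L)) ^ 2 := by
  classical
  have h1 := Algebra.norm_eq_prod_embeddings ℚ QBar (x : L)
  have h2 : ∏ τ : L →ₐ[ℚ] QBar, τ (x : L) = ∏ τ : L →+* QBar, τ (x : L) :=
    Fintype.prod_equiv (RingHom.equivRatAlgHom L QBar).symm _ _ (fun τ => rfl)
  rw [← h2, ← h1, Ideal.absNorm_span_singleton]
  have h3 : (Algebra.norm ℚ (x : L) : ℚ) = ((Algebra.norm ℤ x : ℤ) : ℚ) :=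
    (Algebra.coe_norm_int x).symm
  rw [h3]
  have h4 : (((Algebra.norm ℤ x).natAbs : ℕ) : QBar) = ((|Algebra.norm ℤ x| : ℤ) : QBar) := by
    rw [← Int.natCast_natAbs, Int.cast_natCast]
  rw [h4, map_intCast, ← Int.cast_pow, sq_abs, Int.cast_pow]

theorem main0 (hDir : S_Dir) (hNrm : S_Nrm) : S_TYU := by
  intro L _ _ M t φ a b hM hφ hev σ
  classical
  obtain ⟨E, _, _, j, hj⟩ := exE L
  have hcard : Fintype.card (L →+* E) = Module.finrank ℚ L := by
    rw [Fintype.card_of_bijective hj, NumberField.Embeddings.card]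
  obtain ⟨σ', hσ'⟩ := hj.2 σ
  -- the bad places
  obtain ⟨B₀, hB₀⟩ : ∃ B₀ : ℕ, ∀ w : HeightOneSpectrum (𝓞 L), B₀ < Ideal.absNorm w.asIdeal →
      at1 φ w ^ a = ((Ideal.absNorm w.asIdeal : ℕ) : QBar) ^ b := by
    rw [Filter.eventually_cofinite] at hev
    obtain ⟨B₀, h⟩ := (hev.image (fun w => Ideal.absNorm w.asIdeal)).bddAbove
    refine ⟨B₀, fun w hw => ?_⟩
    by_contra hcon
    exact absurd (h ⟨w, hcon, rfl⟩) (not_le.2 hw)
  obtain ⟨B, hB⟩ := hNrm L E hcard
  obtain ⟨w, y, hw, hy1, hy2, hwp, hwB⟩ := hDir E M 1 hM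
    (by rw [Ideal.span_singleton_one, ← Ideal.one_eq_top]; exact isCoprime_one_left)
    (max B B₀)
  have hBw : B < Ideal.absNorm w.asIdeal := lt_of_le_of_lt (le_max_left _ _) hwB
  have hB₀w : B₀ < Ideal.absNorm w.asIdeal := lt_of_le_of_lt (le_max_right _ _) hwB
  have hy0 : y ≠ 0 := by
    rintro rfl
    apply w.ne_bot
    rw [hw, Ideal.span_singleton_eq_bot]
  obtain ⟨v, x, hv, hx, hvw, hx1, hx2, hx3⟩ := hB w y M hw hwp hBw hM ⟨hy0, hy1, hy2⟩ σ'
  have h1 : at1 φ v = ((typU t (Units.mk0 (x : L) (ray_ne hx)) : QBarˣ) : QBar) := by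
    unfold at1
    rw [← prin_single (ray_ne hx) hv, hφ _ (ray_mem hx)]
    rfl
  have h2 : ((typU t (Units.mk0 (x : L) (ray_ne hx)) : QBarˣ) : QBar) =
      ∏ τ : L →+* QBar, (τ (x : L)) ^ t τ := by
    unfold typU
    rw [Units.coe_prod]
    refine Finset.prod_congr rfl fun τ _ => ?_
    rw [Units.val_zpow_eq_zpow_val]
    rfl
  have h3 := hB₀ v (by rw [hvw]; exact hB₀w)
  have hN : (((Ideal.absNorm v.asIdeal : ℕ) : QBar)) ^ (2 : ℤ) =
      (∏ τ : L →+* QBar, τ (x : L)) ^ (2 : ℤ) := by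
    rw [hv]
    exact_mod_cast norm_sq (x := x)
  have h4 : (∏ τ : L →+* QBar, (τ (x : L)) ^ t τ) ^ (2 * a) =
      (∏ τ : L →+* QBar, τ (x : L)) ^ (2 * b) := by
    calc _ = (at1 φ v ^ a) ^ (2 : ℤ) := by rw [h1, h2, ← zpow_mul, mul_comm]
      _ = ((((Ideal.absNorm v.asIdeal : ℕ) : QBar)) ^ (2 : ℤ)) ^ b := by
        rw [h3, ← zpow_mul, ← zpow_mul, mul_comm]
      _ = _ := by rw [hN, ← zpow_mul]
  have h5 : (∏ τ : L →+* E, ((em τ x : 𝓞 E) : E) ^ t (j.comp τ)) ^ (2 * a) =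
      (∏ τ : L →+* E, ((em τ x : 𝓞 E) : E)) ^ (2 * b) := by
    apply j.injective
    rw [map_zpow₀, map_zpow₀, map_prod, map_prod]
    rw [← hj.prod_comp (fun τ : L →+* QBar => (τ (x : L)) ^ t τ),
      ← hj.prod_comp (fun τ : L →+* QBar => τ (x : L))] at h4
    refine Eq.trans ?_ h4
    congr 1
    refine Finset.prod_congr rfl fun τ _ => ?_
    rw [map_zpow₀]
    rfl
  have hval := congrArg (w.valuation E) h5
  rw [map_zpow₀, map_zpow₀, map_prod, map_prod, Finset.prod_eq_single σ',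
    Finset.prod_eq_single σ', map_zpow₀, val_uni hx1 hx2] at hval
  · have hσ'' : j.comp σ' = σ := hσ'
    rw [hσ'', ← exp_zsmul, ← exp_zsmul, ← exp_zsmul] at hval
    have h6 := exp_injective hval
    simp only [smul_eq_mul] at h6
    linarith
  · intro τ _ hτ
    exact val_one (hx3 τ hτ)
  · intro hn
    exact absurd (Finset.mem_univ _) hn
  · intro τ _ hτ
    rw [map_zpow₀, val_one (hx3 τ hτ), one_zpow]
  · intro hn
    exact absurd (Finset.mem_univ _) hn

theorem main : Pool.Agent.H500.ME.S_TYU :=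
  main0 Pool.Agent.H955.HC.Dir.main (Pool.Agent.H115.HC.Nrm.main Pool.Agent.H71.HC.Crt.main)

end Pool.Agent.H719.ME.TYU
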